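import Pool.Agent.Helper61.NW.Goals2
import Pool.Agent.Helper23.NW.IN3
import Pool.Agent.Helper35.NW.ZD2

/-!
# U4: groups of type `Big2` are universal
-/

set_option autoImplicit false

namespace Pool.Agent.Helper88.UN

open Pool.Agent.Helper52.Wq2 Pool.Agent.Helper61.NW
open Pool.Agent.Helper52.Wqo (Gen conn_normal)

universe u

/-- **U4.** If `Big2 D`, then every Cayley graph of `D` has a complete minor. -/
theorem u4 (D : Type u) [Group D] (h : Big2 D) (T : Set D) (hT : IsGen T) : KN (cay T) := by
  rcases T.finite_or_infinite with hf | hi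
  · exact Pool.Agent.Helper35.NW.zd2 D T hT hf h
  · obtain ⟨z, w, -, hind, hconj, -⟩ := h
    have hG : Gen T := ⟨hT.1, hT.2.1⟩
    have hzinj : Function.Injective (fun n : ℤ => z ^ n) := by
      intro m n hmn
      have h1 : z ^ (m - n) = 1 := by
        rw [zpow_sub]
        simp only at hmn
        rw [hmn, mul_inv_cancel]
      have h2 := (hind 0 (m - n) (by rw [zpow_zero, one_mul, h1])).2
      omega
    have hDinf : Infinite D := Infinite.of_injective _ hzinj
    refine Pool.Agent.Helper23.NW.kn_of_conn hT hi ?_
    intro F hF a b ha hb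
    refine conn_normal hG hi hF ha hb (Subgroup.normalClosure {z}) inferInstance ?_ (Or.inr ?_)
    · refine Set.infinite_of_injective_forall_mem (f := fun n : ℤ => z ^ n) hzinj ?_
      intro n
      exact Subgroup.zpow_mem _ (Subgroup.subset_normalClosure (Set.mem_singleton z)) n
    · -- the centralizer of the conjugates of `z`
      let Z : Set D := Set.range fun g : D => g⁻¹ * z * g
      have hZf : Finite Z := hconj.to_subtype
      have hcl : ∀ g : D, ∀ c : D, c ∈ Z → g⁻¹ * c * g ∈ Z := by
        rintro g c ⟨x, rfl⟩
        refine ⟨x * g, ?_⟩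
        simp only [mul_inv_rev]
        group
      let f : D → (Z → Z) := fun g c => ⟨g⁻¹ * c.1 * g, hcl g c.1 c.2⟩
      obtain ⟨y, hy⟩ := Finite.exists_infinite_fiber f
      obtain ⟨g₀, hg₀⟩ : (f ⁻¹' {y}).Nonempty := Set.Infinite.nonempty (Set.infinite_coe_iff.1 hy)
      have hmem : ∀ g : D, f g = f g₀ →
          g * g₀⁻¹ ∈ Subgroup.centralizer ((Subgroup.normalClosure {z} : Subgroup D) : Set D) := by
        intro g hg
        have hle : Subgroup.normalClosure {z} ≤ Subgroup.centralizer {g * g₀⁻¹} := by
          unfold Subgroup.normalClosure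
          rw [Subgroup.closure_le]
          intro c hc
          rw [Group.mem_conjugatesOfSet_iff] at hc
          obtain ⟨a', ha', hc⟩ := hc
          rw [Set.mem_singleton_iff] at ha'
          subst ha'
          rw [isConj_iff] at hc
          obtain ⟨x, rfl⟩ := hc
          have hxZ : x * a' * x⁻¹ ∈ Z := ⟨x⁻¹, by simp⟩
          have h3 := congrArg Subtype.val (congrFun hg ⟨_, hxZ⟩)
          simp only [f] at h3
          rw [SetLike.mem_coe, Subgroup.mem_centralizer_iff]
          intro t ht
          rw [Set.mem_singleton_iff] at ht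
          subst ht
          generalize x * a' * x⁻¹ = c at h3 ⊢
          -- `g⁻¹ c g = g₀⁻¹ c g₀`
          have h4 : c * g = g * (g₀⁻¹ * c * g₀) := by
            rw [← h3]
            group
          calc g * g₀⁻¹ * c = g * (g₀⁻¹ * c * g₀) * g₀⁻¹ := by group
            _ = c * g * g₀⁻¹ := by rw [← h4]
            _ = c * (g * g₀⁻¹) := by group
        rw [Subgroup.mem_centralizer_iff]
        intro t ht
        have h5 := hle ht
        rw [Subgroup.mem_centralizer_iff] at h5
        exact (h5 _ (Set.mem_singleton _)).symm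
      have hinf : (f ⁻¹' {y}).Infinite := Set.infinite_coe_iff.1 hy
      have himg : ((fun g => g * g₀⁻¹) '' (f ⁻¹' {y})).Infinite :=
        hinf.image (fun a _ b _ hab => mul_right_cancel hab)
      refine himg.mono ?_
      rintro _ ⟨g, hg, rfl⟩
      exact hmem g (hg.trans hg₀.symm)

end Pool.Agent.Helper88.UN
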