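import Pool.Agent.Helper80.NIL.VNL
import Pool.Agent.Helper52.UN.U3
import Pool.Agent.Helper88.UN.U4

/-!
# Virtually soluble groups
-/

set_option autoImplicit false

namespace Pool.Agent.Helper88.UN

open Pool.Agent.Helper52.Wq2 Pool.Agent.Helper61.NW Pool.Agent.Helper52.UN

universe u

/-- **U5.** A finitely generated normal subgroup of infinite index with commuting independent
elements. -/
def U5Stmt : Prop := ∀ (D : Type u) [Group D] (H : Subgroup D), H.Normal → Group.FG H →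
  ¬ H.FiniteIndex → ∀ a b : D, a ∈ H → b ∈ H → a * b = b * a →
  (∀ i j : ℤ, a ^ i * b ^ j = 1 → i = 0 ∧ j = 0) → ∀ T : Set D, IsGen T → KN (cay T)

/-- The last infinite term of the derived series. -/
theorem last {Γ : Type u} [Group Γ] [Infinite Γ] (hs : Group.IsSolvable Γ)
    (hN : ∀ D : Subgroup Γ, Group.FG D) :
    ∃ N : Subgroup Γ, N.Normal ∧ Infinite N ∧ (Subgroup.center N).FiniteIndex := by
  classical
  have hex : ∃ n, Finite (derivedSeries Γ n) := by
    obtain ⟨n, hn⟩ := hs.solvable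
    refine ⟨n, ?_⟩
    rw [hn]
    infer_instance
  obtain ⟨n, hn, hmin⟩ : ∃ n, Finite (derivedSeries Γ n) ∧ ∀ m < n, ¬ Finite (derivedSeries Γ m) :=
    ⟨Nat.find hex, Nat.find_spec hex, fun m hm => Nat.find_min hex hm⟩
  rcases n with _ | n
  · exfalso
    rw [derivedSeries_zero] at hn
    have : Finite Γ := Finite.of_equiv _ (Subgroup.topEquiv (G := Γ)).toEquiv
    exact not_finite Γ
  · refine ⟨derivedSeries Γ n, derivedSeries_normal Γ n, not_finite_iff_infinite.1 (hmin n (by omega)), ?_⟩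
    have h1 : Group.FG (derivedSeries Γ n) := hN _
    have h2 : Finite (commutatorSet (derivedSeries Γ n)) := by
      refine Finite.of_injective (β := derivedSeries Γ (n + 1)) (fun x => ⟨((x : derivedSeries Γ n) : Γ), ?_⟩) ?_
      · obtain ⟨x, g₁, g₂, rfl⟩ := x
        rw [derivedSeries_succ]
        exact Subgroup.commutator_mem_commutator g₁.2 g₂.2
      · intro x y hxy
        apply Subtype.ext
        apply Subtype.ext
        exact congrArg (fun t : derivedSeries Γ (n + 1) => (t : Γ)) hxy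
    infer_instance

theorem inf_of_inf_zp {G : Type u} [Group G] [Infinite G] {c : G}
    (hc : (Subgroup.zpowers c).FiniteIndex) : ∀ i : ℤ, c ^ i = 1 → i = 0 := by
  intro i hi
  by_contra hne
  have h1 : IsOfFinOrder c := isOfFinOrder_iff_zpow_eq_one.2 ⟨i, hne, hi⟩
  have h2 : Finite (Subgroup.zpowers c) := by
    have := (finite_zpowers (a := c)).2 h1
    exact this.to_subtype
  have : Finite G := (Subgroup.finite_iff_finite_and_finiteIndex (H := Subgroup.zpowers c)).2 ⟨h2, hc⟩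
  exact not_finite G

theorem vnl_of_center {N : Type u} [Group N] (hfg : Group.FG N) (hinf : Infinite N)
    (hc : (Subgroup.center N).FiniteIndex) :
    Big2 N ∨ (∃ A : Subgroup N, A.FiniteIndex ∧ Nonempty (A ≃* Multiplicative (ℤ × ℤ))) ∨
      ∃ c : N, (Subgroup.zpowers c).FiniteIndex := by
  refine Pool.Agent.Helper80.NIL.vnl N hfg hinf ⟨Subgroup.center N, hc, ?_⟩
  let _i : CommGroup (Subgroup.center N) :=
    { (inferInstance : Group (Subgroup.center N)) with
      mul_comm := fun x y => Subtype.ext (Subgroup.mem_center_iff.1 y.2 x.1) }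
  exact CommGroup.isNilpotent

/-- Generators of `ℤ²`. -/
theorem gens {N : Type u} [Group N] {A : Subgroup N} (e : A ≃* Multiplicative (ℤ × ℤ)) :
    ∃ a b : N, a ∈ A ∧ b ∈ A ∧ a * b = b * a ∧ ∀ i j : ℤ, a ^ i * b ^ j = 1 → i = 0 ∧ j = 0 := by
  refine ⟨(e.symm (Multiplicative.ofAdd (1, 0)) : A), (e.symm (Multiplicative.ofAdd (0, 1)) : A),
    Subtype.property _, Subtype.property _, ?_, ?_⟩
  · have h : e.symm (Multiplicative.ofAdd (1, 0)) * e.symm (Multiplicative.ofAdd (0, 1)) =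
        e.symm (Multiplicative.ofAdd (0, 1)) * e.symm (Multiplicative.ofAdd (1, 0)) :=
      (map_mul e.symm _ _).symm.trans ((congrArg e.symm (mul_comm _ _)).trans (map_mul e.symm _ _))
    exact congrArg Subtype.val h
  · intro i j h
    have h1 : e.symm (Multiplicative.ofAdd (1, 0)) ^ i * e.symm (Multiplicative.ofAdd (0, 1)) ^ j =
        1 := Subtype.ext h
    have h2 := congrArg (fun x => Multiplicative.toAdd (e x)) h1
    simp only [map_mul, map_zpow, MulEquiv.apply_symm_apply, map_one, toAdd_mul, toAdd_zpow,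
      toAdd_ofAdd, toAdd_one] at h2
    have h3 := congrArg Prod.fst h2
    have h4 := congrArg Prod.snd h2
    simp at h3 h4
    exact ⟨h3, h4⟩

/-- Elements of infinite order. -/
theorem inf_order {Γ : Type u} [Group Γ] [Infinite Γ] (hs : Group.IsSolvable Γ)
    (hN : ∀ D : Subgroup Γ, Group.FG D) : ∃ w : Γ, ∀ i : ℤ, w ^ i = 1 → i = 0 := by
  obtain ⟨N, -, hNi, hc⟩ := last hs hN
  rcases vnl_of_center (hN N) hNi hc with ⟨z, w, -, hind, -, -⟩ | ⟨A, -, ⟨e⟩⟩ | ⟨c, hc⟩
  · refine ⟨(z : Γ), fun i hi => ?_⟩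
    refine (hind 0 i ?_).2
    rw [zpow_zero, one_mul]
    exact Subtype.ext (by push_cast; exact hi)
  · obtain ⟨a, b, -, -, -, hind⟩ := gens e
    refine ⟨(a : Γ), fun i hi => ?_⟩
    refine (hind i 0 ?_).1
    rw [zpow_zero, mul_one]
    exact Subtype.ext (by push_cast; exact hi)
  · refine ⟨(c : Γ), fun i hi => inf_of_inf_zp hc i (Subtype.ext (by push_cast; exact hi))⟩

/-- A virtually cyclic normal subgroup contains an element with finitely many conjugates. -/
theorem conj_fin {Γ : Type u} [Group Γ] (N : Subgroup Γ) (hn : N.Normal) (c : N)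
    (hc : (Subgroup.zpowers c).FiniteIndex) (hinf : ∀ i : ℤ, c ^ i = 1 → i = 0) :
    ∃ z : Γ, z ∈ N ∧ (∀ i : ℤ, z ^ i = 1 → i = 0) ∧ (Set.range fun g : Γ => g⁻¹ * z * g).Finite := by
  have hinf' : ∀ i : ℤ, (c : Γ) ^ i = 1 → i = 0 := fun i hi =>
    hinf i (Subtype.ext (by push_cast; exact hi))
  have hinj : ∀ i j : ℤ, (c : Γ) ^ i = (c : Γ) ^ j → i = j := by
    intro i j h
    have h1 : (c : Γ) ^ (i - j) = 1 := by rw [zpow_sub, h, mul_inv_cancel]
    have := hinf' _ h1
    omega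
  set n := (Subgroup.zpowers c).index with hnn
  have hn0 : n ≠ 0 := hc.index_ne_zero
  let M : ℕ := n.factorial
  have hM : 0 < M := Nat.factorial_pos n
  have hpow : ∀ g : Γ, ∃ k : ℤ, g⁻¹ * (c : Γ) ^ M * g = (c : Γ) ^ k := by
    intro g
    have hx : g⁻¹ * (c : Γ) * g ∈ N := by
      have := hn.conj_mem (c : Γ) c.2 g⁻¹
      simpa using this
    obtain ⟨k, hk0, hkn, hk⟩ := Subgroup.exists_pow_mem_of_index_ne_zero hn0
      (⟨g⁻¹ * (c : Γ) * g, hx⟩ : N)
    obtain ⟨l, hl⟩ := Subgroup.mem_zpowers_iff.1 hk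
    have hl' := congrArg (fun x : N => (x : Γ)) hl
    simp only [Subgroup.coe_zpow, Subgroup.coe_pow] at hl'
    obtain ⟨q, hq⟩ : k ∣ M := Nat.dvd_factorial hk0 hkn
    refine ⟨l * q, ?_⟩
    rw [zpow_mul, hl', zpow_natCast, ← pow_mul, ← hq]
    rw [show g⁻¹ * (c : Γ) * g = g⁻¹ * (c : Γ) * (g⁻¹)⁻¹ by rw [inv_inv], conj_pow, inv_inv]
  have hbd : ∀ (g : Γ) (k : ℤ), g⁻¹ * (c : Γ) ^ M * g = (c : Γ) ^ k → |k| ≤ (M * M : ℕ) := by
    intro g k hk
    obtain ⟨k', hk'⟩ := hpow g⁻¹
    rw [inv_inv] at hk'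
    have h1 : (c : Γ) ^ (k * M) = g⁻¹ * (c : Γ) ^ (M * M) * g := by
      rw [zpow_mul, ← hk, zpow_natCast,
        show g⁻¹ * (c : Γ) ^ M * g = g⁻¹ * (c : Γ) ^ M * (g⁻¹)⁻¹ by rw [inv_inv], conj_pow, inv_inv,
        ← pow_mul]
    have h2 : (c : Γ) ^ (k' * k) = g * (c : Γ) ^ (k * M) * g⁻¹ := by
      rw [zpow_mul, ← hk', conj_zpow]
      congr 2
      rw [← zpow_natCast, ← zpow_mul, mul_comm]
    have h3 : (c : Γ) ^ (k' * k) = (c : Γ) ^ ((M * M : ℕ) : ℤ) := by
      rw [h2, h1, zpow_natCast]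
      group
    have h4 := hinj _ _ h3
    have h5 : |k| ∣ ((M * M : ℕ) : ℤ) := by
      rw [abs_dvd]
      exact ⟨k', by rw [← h4, mul_comm]⟩
    exact Int.le_of_dvd (by positivity) h5
  refine ⟨(c : Γ) ^ M, N.pow_mem c.2 _, ?_, ?_⟩
  · intro i hi
    rw [← zpow_natCast, ← zpow_mul] at hi
    have := hinf' _ hi
    rcases mul_eq_zero.1 this with h | h
    · omega
    · exact h
  · refine ((Set.finite_Icc (-((M * M : ℕ) : ℤ)) ((M * M : ℕ) : ℤ)).image
      (fun k : ℤ => (c : Γ) ^ k)).subset ?_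
    rintro _ ⟨g, rfl⟩
    obtain ⟨k, hk⟩ := hpow g
    refine ⟨k, ?_, hk.symm⟩
    exact abs_le.1 (hbd g k hk)

/-- `ℤ²` from two commuting independent elements. -/
theorem zz {Γ : Type u} [Group Γ] (z w : Γ) (hzw : w * z = z * w)
    (hind : ∀ i j : ℤ, w ^ i * z ^ j = 1 → i = 0 ∧ j = 0)
    (hf : (Subgroup.closure {z, w}).FiniteIndex) :
    ∃ A : Subgroup Γ, A.FiniteIndex ∧ Nonempty (A ≃* Multiplicative (ℤ × ℤ)) := by
  have hcom : ∀ i j : ℤ, z ^ i * w ^ j = w ^ j * z ^ i := by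
    intro i j
    have : Commute z w := hzw.symm
    exact (this.zpow_zpow i j)
  let φ : Multiplicative (ℤ × ℤ) →* Γ :=
    { toFun := fun p => w ^ (Multiplicative.toAdd p).1 * z ^ (Multiplicative.toAdd p).2
      map_one' := by simp
      map_mul' := by
        intro p q
        rw [toAdd_mul, Prod.fst_add, Prod.snd_add, zpow_add, zpow_add]
        have h1 := hcom (Multiplicative.toAdd p).2 (Multiplicative.toAdd q).1
        calc w ^ (Multiplicative.toAdd p).1 * w ^ (Multiplicative.toAdd q).1 *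
              (z ^ (Multiplicative.toAdd p).2 * z ^ (Multiplicative.toAdd q).2)
            = w ^ (Multiplicative.toAdd p).1 * (w ^ (Multiplicative.toAdd q).1 *
              z ^ (Multiplicative.toAdd p).2) * z ^ (Multiplicative.toAdd q).2 := by
              simp only [mul_assoc]
          _ = _ := by rw [← h1]; simp only [mul_assoc] }
  have hinj : Function.Injective φ := by
    rw [injective_iff_map_eq_one]
    intro p hp
    obtain ⟨h1, h2⟩ := hind _ _ hp
    apply Multiplicative.toAdd.injective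
    exact Prod.ext h1 h2
  refine ⟨φ.range, ?_, ⟨(MonoidHom.ofInjective hinj).symm⟩⟩
  refine Subgroup.finiteIndex_of_le (H := Subgroup.closure {z, w}) ?_
  rw [Subgroup.closure_le]
  rintro x (rfl | rfl)
  · exact ⟨Multiplicative.ofAdd (0, 1), by simp [φ]⟩
  · exact ⟨Multiplicative.ofAdd (1, 0), by simp [φ]⟩

theorem tame_solv {D : Type u} [Group D] (hs : Group.IsSolvable D) (hfg : ¬ Group.FG D) : TameG D := by
  have hi : Infinite D := by
    by_contra h
    rw [not_infinite_iff_finite] at h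
    exact hfg inferInstance
  refine Or.inr ⟨⊤, inferInstance, ?_, Or.inl ?_⟩
  · exact Infinite.of_injective (fun x : D => (⟨x, Subgroup.mem_top x⟩ : (⊤ : Subgroup D)))
      (fun x y h => congrArg Subtype.val h)
  · intro f hf
    have hst : Group.IsSolvable (⊤ : Subgroup D) := inferInstance
    refine Pool.Agent.Helper23.NW.no_free hst (f (FreeGroup.of 0)) (f (FreeGroup.of 1)) ?_
    have : FreeGroup.lift (![f (FreeGroup.of 0), f (FreeGroup.of 1)]) = f := by
      ext i
      fin_cases i <;> simp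
    rw [this]
    exact hf

/-- **SOL**, soluble groups. -/
theorem sol (h5 : U5Stmt.{u}) {Γ : Type u} [Group Γ] [Infinite Γ] (hs : Group.IsSolvable Γ) :
    (∃ c : Γ, (Subgroup.zpowers c).FiniteIndex) ∨
    (∃ A : Subgroup Γ, A.FiniteIndex ∧ Nonempty (A ≃* Multiplicative (ℤ × ℤ))) ∨ Uv Γ := by
  by_cases hall : ∀ D : Subgroup Γ, Group.FG D
  swap
  · push_neg at hall
    obtain ⟨D, hD⟩ := hall
    exact Or.inr (Or.inr (uv_of_sub D (uv_of_not_fg hD (tame_solv inferInstance hD))))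
  obtain ⟨N, hn, hNi, hcen⟩ := last hs hall
  rcases vnl_of_center (hall N) hNi hcen with hB | ⟨A, hA, ⟨e⟩⟩ | ⟨c, hc⟩
  · exact Or.inr (Or.inr (uv_of_sub N (fun T hT => u4 N hB T hT)))
  · by_cases hf : N.FiniteIndex
    · refine Or.inr (Or.inl ⟨A.map N.subtype, Pool.Agent.Helper80.NIL.fin_map N hf _ hA, ⟨?_⟩⟩)
      exact (A.equivMapOfInjective N.subtype N.subtype_injective).symm.trans e
    · obtain ⟨a, b, -, -, hab, hind⟩ := gens e
      refine Or.inr (Or.inr (fun T hT => h5 Γ N hn (hall N) hf (a : Γ) (b : Γ) a.2 b.2 ?_ ?_ T hT))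
      · exact congrArg (fun x : N => (x : Γ)) hab
      · intro i j hij
        exact hind i j (Subtype.ext (by push_cast; exact hij))
  · by_cases hf : N.FiniteIndex
    · refine Or.inl ⟨(c : Γ), ?_⟩
      have h1 := Pool.Agent.Helper80.NIL.fin_map N hf _ hc
      rw [MonoidHom.map_zpowers] at h1
      exact h1
    · obtain ⟨z, hzN, hzo, hzf⟩ := conj_fin N hn c hc (inf_of_inf_zp hc)
      -- an element of infinite order modulo `N`
      have hQi : Infinite (Γ ⧸ N) := by
        by_contra h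
        rw [not_infinite_iff_finite] at h
        exact hf Subgroup.finiteIndex_of_finite_quotient
      have hQs : Group.IsSolvable (Γ ⧸ N) := inferInstance
      have hQf : ∀ D : Subgroup (Γ ⧸ N), Group.FG D := by
        intro D
        have h1 : Group.FG (D.comap (QuotientGroup.mk' N)) := hall _
        refine Group.fg_of_surjective (f := (QuotientGroup.mk' N).subgroupComap D) ?_
        rintro ⟨d, hd⟩
        obtain ⟨g, rfl⟩ := QuotientGroup.mk'_surjective N d
        exact ⟨⟨g, hd⟩, rfl⟩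
      obtain ⟨q, hq⟩ := inf_order hQs hQf
      obtain ⟨w, rfl⟩ := QuotientGroup.mk_surjective q
      have hwN : ∀ i : ℤ, w ^ i ∈ N → i = 0 := by
        intro i hi
        apply hq
        rw [← QuotientGroup.mk_zpow]
        exact (QuotientGroup.eq_one_iff _).2 hi
      -- a power of `w` commutes with `z`
      have hZf : Finite (Set.range fun g : Γ => g⁻¹ * z * g) := hzf.to_subtype
      obtain ⟨i, j, hij, hEq⟩ := Finite.exists_ne_map_eq_of_infinite
        (fun n : ℕ => (⟨(w ^ n)⁻¹ * z * w ^ n, ⟨w ^ n, rfl⟩⟩ :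
          Set.range fun g : Γ => g⁻¹ * z * g))
      have hEq' : (w ^ i)⁻¹ * z * w ^ i = (w ^ j)⁻¹ * z * w ^ j := congrArg Subtype.val hEq
      set r : ℤ := (j : ℤ) - i with hr
      have hr0 : r ≠ 0 := by omega
      have hcomm : w ^ r * z = z * w ^ r := by
        have h1 : w ^ r = w ^ j * (w ^ i)⁻¹ := by
          rw [hr, zpow_sub, zpow_natCast, zpow_natCast]
        rw [h1]
        calc w ^ j * (w ^ i)⁻¹ * z = w ^ j * ((w ^ i)⁻¹ * z * w ^ i) * (w ^ i)⁻¹ := by group
          _ = w ^ j * ((w ^ j)⁻¹ * z * w ^ j) * (w ^ i)⁻¹ := by rw [hEq']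
          _ = z * (w ^ j * (w ^ i)⁻¹) := by group
      have hind : ∀ i j : ℤ, (w ^ r) ^ i * z ^ j = 1 → i = 0 ∧ j = 0 := by
        intro i j h
        have h1 : (w ^ r) ^ i ∈ N := by
          rw [mul_eq_one_iff_eq_inv] at h
          rw [h]
          exact N.inv_mem (N.zpow_mem hzN j)
        rw [← zpow_mul] at h1
        have h2 := hwN _ h1
        have h3 : i = 0 := by
          rcases mul_eq_zero.1 h2 with h | h
          · exact absurd h hr0
          · exact h
        subst h3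
        rw [zpow_zero, one_mul] at h
        exact ⟨rfl, hzo j h⟩
      by_cases hfi : (Subgroup.closure {z, w ^ r}).FiniteIndex
      · exact Or.inr (Or.inl (zz z (w ^ r) hcomm hind hfi))
      · exact Or.inr (Or.inr (fun T hT => u4 Γ ⟨z, w ^ r, hcomm, hind, hzf, hfi⟩ T hT))

/-- **SOL**, virtually soluble groups. -/
theorem vsol (h5 : U5Stmt.{u}) {Γ : Type u} [Group Γ] [Infinite Γ]
    (hs : ∃ N : Subgroup Γ, N.FiniteIndex ∧ Group.IsSolvable N) :
    (∃ c : Γ, (Subgroup.zpowers c).FiniteIndex) ∨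
    (∃ A : Subgroup Γ, A.FiniteIndex ∧ Nonempty (A ≃* Multiplicative (ℤ × ℤ))) ∨ Uv Γ := by
  obtain ⟨N, hN, hsol⟩ := hs
  have hNi : Infinite N := Set.infinite_coe_iff.2 (Pool.Agent.Helper23.NW.infinite_of_finiteIndex hN)
  rcases sol h5 hsol with ⟨c, hc⟩ | ⟨A, hA, ⟨e⟩⟩ | h
  · refine Or.inl ⟨(c : Γ), ?_⟩
    have h1 := Pool.Agent.Helper80.NIL.fin_map N hN _ hc
    rw [MonoidHom.map_zpowers] at h1
    exact h1
  · refine Or.inr (Or.inl ⟨A.map N.subtype, Pool.Agent.Helper80.NIL.fin_map N hN _ hA, ⟨?_⟩⟩)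
    exact (A.equivMapOfInjective N.subtype N.subtype_injective).symm.trans e
  · exact Or.inr (Or.inr (uv_of_sub N h))

end Pool.Agent.Helper88.UN
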