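import Pool.Agent.Helper88.UN.SOL
import Pool.Agent.Helper80.UN.U5

/-! UNIV (MP_266b34_co): finitely generated normal subgroups of infinite index which contain `ℤ²`
(helper80's proof of U5, with the generators of `H` added to `P`); virtually soluble groups. -/

set_option autoImplicit false

namespace Pool.Agent.Helper88.UN

open Pool.Agent.Helper52.Wq2
open Pool.Agent.Helper61.NW
open Pool.Agent.Helper35.NW
open Pool.Agent.Helper74.NW (Rel combine kn_of)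
open Pool.Agent.Helper80.UN (rel_of_conn)

universe u

/-- The union of the translates `h P`. -/
theorem plane_conn {Γ : Type u} [Group Γ] {S : Set Γ} (hS : IsGen S) {H : Subgroup Γ} {G₀ P : Set Γ}
    (hG : Subgroup.closure G₀ = H) (hP : Conn (cay S) P) (h1 : (1 : Γ) ∈ P) (hGP : G₀ ⊆ P) :
    Conn (cay S) {x | ∃ h ∈ H, ∃ p ∈ P, x = h * p} := by
  refine ⟨⟨1, 1, H.one_mem, 1, h1, by simp⟩, ?_⟩
  rintro A hA ⟨x, hx⟩ hcl
  have key : ∀ h ∈ H, (∃ p ∈ P, h * p ∈ A) → ∀ p ∈ P, h * p ∈ A := by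
    rintro h hh ⟨p, hp, hpA⟩ q hq
    have hc := (tr_conn hS h hP).2 (A ∩ tr h P) (fun v hv => hv.2)
      ⟨h * p, hpA, by rw [mem_tr, inv_mul_cancel_left]; exact hp⟩
      (fun u hu v hv huv => ⟨hcl u hu.1 v ⟨h, hh, h⁻¹ * v, (mem_tr.1 hv), by group⟩ huv, hv⟩)
    exact (hc (by rw [mem_tr, inv_mul_cancel_left]; exact hq : h * q ∈ tr h P)).1
  obtain ⟨h₀, hh₀, p₀, hp₀, rfl⟩ := hA hx
  have h₀A : h₀ ∈ A := by
    have := key h₀ hh₀ ⟨p₀, hp₀, hx⟩ 1 h1
    rwa [mul_one] at this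
  have step : ∀ g ∈ H, ∀ h ∈ H, h ∈ A → h * g ∈ A ∧ h * g⁻¹ ∈ A := by
    intro g hg
    rw [← hG] at hg
    induction hg using Subgroup.closure_induction with
    | mem s hs =>
      intro h hh hhA
      refine ⟨key h hh ⟨1, h1, by rw [mul_one]; exact hhA⟩ s (hGP hs), ?_⟩
      have hsH : s ∈ H := hG ▸ Subgroup.subset_closure hs
      have := key (h * s⁻¹) (H.mul_mem hh (H.inv_mem hsH)) ⟨s, hGP hs, by
        rw [inv_mul_cancel_right]; exact hhA⟩ 1 h1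
      rwa [mul_one] at this
    | one => intro h _ hhA; simpa using hhA
    | mul x y hx hy ihx ihy =>
      intro h hh hhA
      have hxH : x ∈ H := hG ▸ hx
      have hyH : y ∈ H := hG ▸ hy
      refine ⟨?_, ?_⟩
      · rw [← mul_assoc]
        exact (ihy _ (H.mul_mem hh hxH) (ihx h hh hhA).1).1
      · rw [mul_inv_rev, ← mul_assoc]
        exact (ihx _ (H.mul_mem hh (H.inv_mem hyH)) (ihy h hh hhA).2).2
    | inv x _ ih =>
      intro h hh hhA
      rw [inv_inv]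
      exact ⟨(ih h hh hhA).2, (ih h hh hhA).1⟩
  rintro _ ⟨h, hh, p, hp, rfl⟩
  have h2 := (step (h₀⁻¹ * h) (H.mul_mem (H.inv_mem hh₀) hh) h₀ hh₀ h₀A).1
  rw [mul_inv_cancel_left] at h2
  exact key h hh ⟨1, h1, by rw [mul_one]; exact h2⟩ p hp

theorem u5p : U5Stmt.{u} := by
  intro Γ _ H hn hfg hidx a b haH hbH hab hind S hS
  have hc : ∀ i j : ℤ, a ^ i * b ^ j = b ^ j * a ^ i := fun i j =>
    ((show Commute a b from hab).zpow_zpow i j).eq
  rw [Group.fg_iff_subgroup_fg] at hfg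
  obtain ⟨G₀, hG₀⟩ := hfg
  -- the pieces
  obtain ⟨P, hPf, hPc, hP1, hPab⟩ := exists_conn_fin hS ((G₀ : Set Γ) ∪ {a, b}) (Set.toFinite _)
  have hPa : a ∈ P := hPab (by simp)
  have hPb : b ∈ P := hPab (by simp)
  obtain ⟨y, hy⟩ := exists_far H hidx (Set.image2 (fun p q => p * q⁻¹) P P) (hPf.image2 _ hPf)
  obtain ⟨C, hCf, hCc, hC1, hCy⟩ := exists_conn hS y
  -- lines and the plane
  let Ln : Γ → Set Γ := fun g => ⋃ i : ℤ, tr (g * a ^ i) P
  have hLm : ∀ g x, x ∈ Ln g ↔ ∃ i : ℤ, ∃ p ∈ P, x = g * a ^ i * p := by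
    intro g x
    constructor
    · intro h
      obtain ⟨i, hi⟩ := Set.mem_iUnion.1 h
      exact ⟨i, _, hi, by group⟩
    · rintro ⟨i, p, hp, rfl⟩
      refine Set.mem_iUnion.2 ⟨i, ?_⟩
      rw [mem_tr, inv_mul_cancel_left]
      exact hp
  have hLc : ∀ g, Conn (cay S) (Ln g) := by
    intro g
    refine union_chain _ (fun i => tr_conn hS _ hPc) ?_
    intro i
    refine ⟨g * a ^ (i + 1), ?_, ?_⟩
    · rw [mem_tr]
      have e : (g * a ^ i)⁻¹ * (g * a ^ (i + 1)) = a := by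
        rw [zpow_add_one]; group
      rw [e]; exact hPa
    · rw [mem_tr, inv_mul_cancel]; exact hP1
  let Pl : Set Γ := {x | ∃ h ∈ H, ∃ p ∈ P, x = h * p}
  have hPlc : Conn (cay S) Pl := plane_conn hS hG₀ hPc hP1 (fun x hx => hPab (Or.inl hx))
  have hPlm : ∀ x, x ∈ Pl ↔ ∃ h ∈ H, ∃ p ∈ P, x = h * p := fun x => Iff.rfl
  let W : Set Γ := tr y Pl
  have hWc : Conn (cay S) W := tr_conn hS _ hPlc
  have hWd : ∀ x ∈ W, x ∉ Pl := by
    intro x hx hx'
    obtain ⟨h, hh, p, hp, he⟩ := (hPlm _).1 hx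
    obtain ⟨h', hh', p', hp', rfl⟩ := (hPlm _).1 hx'
    -- y * h * p = h' * p'
    have e1 : y = h' * ((p' * p⁻¹) * h⁻¹ * (p' * p⁻¹)⁻¹) * (p' * p⁻¹) := by
      have e2 : y * h * p = h' * p' := by
        have : h' * p' = y * (y⁻¹ * (h' * p')) := by group
        rw [this, he]; group
      calc y = y * h * p * p⁻¹ * h⁻¹ := by group
        _ = h' * p' * p⁻¹ * h⁻¹ := by rw [e2]
        _ = _ := by group
    exact hy _ (H.mul_mem hh' (hn.conj_mem _ (H.inv_mem hh) _)) _ ⟨p', hp', p, hp, rfl⟩ e1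
  -- the distance
  have hI : Function.Injective (fun p : ℤ × ℤ => b ^ p.1 * a ^ p.2) := by
    rintro ⟨n, l⟩ ⟨n', l'⟩ h
    have h : b ^ n * a ^ l = b ^ n' * a ^ l' := h
    have h2 : a ^ (l - l') * b ^ (n - n') = 1 := by
      rw [hc, zpow_sub, zpow_sub]
      calc b ^ n * (b ^ n')⁻¹ * (a ^ l * (a ^ l')⁻¹)
          = (b ^ n')⁻¹ * (b ^ n * a ^ l) * (a ^ l')⁻¹ := by
            rw [← zpow_neg, ← zpow_add, ← mul_assoc, ← mul_assoc, ← zpow_add, add_comm]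
        _ = 1 := by rw [h]; group
    obtain ⟨h3, h4⟩ := hind _ _ h2
    rw [Prod.mk.injEq]
    constructor <;> omega
  let E : Set Γ := Set.image2 (fun p q => p * q⁻¹) P P ∪ Set.image2 (fun p q => p * q⁻¹) C P
  have hEf : E.Finite := (hPf.image2 _ hPf).union (hCf.image2 _ hPf)
  obtain ⟨N, hN0, hN⟩ : ∃ N : ℕ, 0 < N ∧ ∀ n l : ℤ, (N : ℤ) ≤ |n| → b ^ n * a ^ l ∉ E := by
    have h1 : ((fun p : ℤ × ℤ => b ^ p.1 * a ^ p.2) ⁻¹' E).Finite :=
      hEf.preimage hI.injOn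
    have h2 := (h1.image (fun p : ℤ × ℤ => p.1.natAbs)).bddAbove
    obtain ⟨M, hM⟩ := h2
    refine ⟨M + 1, Nat.succ_pos _, ?_⟩
    intro n l hn hE
    have := hM ⟨(n, l), hE, rfl⟩
    simp only at this
    rw [Int.abs_eq_natAbs] at hn
    have h5 : M + 1 ≤ n.natAbs := Int.ofNat_le.1 hn
    omega
  have hfar : ∀ i j : ℕ, i ≠ j → (N : ℤ) ≤ |(N : ℤ) * j - (N : ℤ) * i| := by
    intro i j hij
    rw [← mul_sub, abs_mul, Nat.abs_cast]
    have h1 : 1 ≤ |(j : ℤ) - i| := Int.one_le_abs (by omega)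
    nlinarith
  let t : ℕ → Γ := fun k => b ^ ((N : ℤ) * k)
  let T : ℕ → Set Γ := fun k => Ln (t k)
  have htT : ∀ k, t k ∈ T k := fun k => (hLm _ _).2 ⟨0, 1, hP1, by simp⟩
  have hTPl : ∀ k, T k ⊆ Pl := by
    intro k x hx
    obtain ⟨l, p, hp, rfl⟩ := (hLm _ _).1 hx
    exact ⟨t k * a ^ l, H.mul_mem (H.zpow_mem hbH _) (H.zpow_mem haH l), p, hp, rfl⟩
  have hTW : ∀ k, Disjoint W (T k) := fun k =>
    Set.disjoint_left.2 fun x hx hx' => hWd x hx (hTPl k hx')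
  have hCT : ∀ i k : ℕ, k ≠ i → Disjoint (tr (t i) C) (T k) := by
    intro i k hki
    rw [Set.disjoint_left]
    intro x hx hx'
    obtain ⟨l, p, hp, rfl⟩ := (hLm _ _).1 hx'
    rw [mem_tr] at hx
    apply hN ((N : ℤ) * k - (N : ℤ) * i) l (hfar i k hki.symm)
    right
    refine ⟨_, hx, p, hp, ?_⟩
    change (b ^ ((N : ℤ) * i))⁻¹ * (b ^ ((N : ℤ) * k) * a ^ l * p) * p⁻¹ = _
    have e : b ^ ((N : ℤ) * k - (N : ℤ) * i) = (b ^ ((N : ℤ) * i))⁻¹ * b ^ ((N : ℤ) * k) := by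
      rw [← zpow_neg, ← zpow_add]; congr 1; ring
    rw [e]
    group
  apply kn_of
  refine combine (S := S) a ?_ T t htT ?_ ?_ ?_ ?_
  · intro n hn' h
    have := hind (n : ℤ) 0 (by rw [zpow_zero, mul_one, zpow_natCast, h])
    omega
  · intro i x hx
    exact rel_of_conn (hLc _) (htT i) hx
  · intro i n x
    have hcn : ∀ l : ℤ, a ^ n * (t i * a ^ l) = t i * a ^ ((n : ℤ) + l) := by
      intro l
      change a ^ n * (b ^ ((N : ℤ) * i) * a ^ l) = b ^ ((N : ℤ) * i) * a ^ ((n : ℤ) + l)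
      rw [← zpow_natCast, ← mul_assoc, hc, mul_assoc, ← zpow_add]
    change a ^ n * x ∈ Ln (t i) ↔ x ∈ Ln (t i)
    rw [hLm, hLm]
    constructor
    · rintro ⟨l, p, hp, he⟩
      refine ⟨l - n, p, hp, ?_⟩
      have e : a ^ n * (t i * a ^ (l - (n : ℤ))) = t i * a ^ l := by
        rw [hcn]; congr 2; omega
      have e2 : a ^ n * x = a ^ n * (t i * a ^ (l - (n : ℤ)) * p) := by
        rw [he, ← e]; simp only [mul_assoc]
      exact mul_left_cancel e2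
    · rintro ⟨l, p, hp, rfl⟩
      refine ⟨(n : ℤ) + l, p, hp, ?_⟩
      rw [← hcn l]
      simp only [mul_assoc]
  · intro i j hij
    rw [Set.disjoint_left]
    intro x hx hx'
    obtain ⟨l, p, hp, rfl⟩ := (hLm _ _).1 hx
    obtain ⟨l', p', hp', he⟩ := (hLm _ _).1 hx'
    apply hN ((N : ℤ) * j - (N : ℤ) * i) (l' - l) (hfar i j hij)
    left
    refine ⟨p, hp, p', hp', ?_⟩
    change p * p'⁻¹ = _
    have he' : b ^ ((N : ℤ) * i) * a ^ l * p = b ^ ((N : ℤ) * j) * a ^ l' * p' := he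
    have e1 : p = (b ^ ((N : ℤ) * i) * a ^ l)⁻¹ * (b ^ ((N : ℤ) * j) * a ^ l' * p') := by
      rw [← he']; group
    have e2 : (b ^ ((N : ℤ) * i) * a ^ l)⁻¹ * (b ^ ((N : ℤ) * j) * a ^ l') =
        b ^ ((N : ℤ) * j - (N : ℤ) * i) * a ^ (l' - l) := by
      have e3 : b ^ ((N : ℤ) * j - (N : ℤ) * i) = (b ^ ((N : ℤ) * i))⁻¹ * b ^ ((N : ℤ) * j) := by
        rw [← zpow_neg, ← zpow_add]; congr 1; ring
      have e4 : a ^ (l' - l) = a ^ (-l) * a ^ l' := by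
        rw [← zpow_add]; congr 1; ring
      calc (b ^ ((N : ℤ) * i) * a ^ l)⁻¹ * (b ^ ((N : ℤ) * j) * a ^ l')
          = a ^ (-l) * b ^ ((N : ℤ) * j - (N : ℤ) * i) * a ^ l' := by
            rw [e3, zpow_neg]; group
        _ = b ^ ((N : ℤ) * j - (N : ℤ) * i) * a ^ (-l) * a ^ l' := by rw [hc]
        _ = _ := by rw [e4, mul_assoc]
    rw [← e2]
    calc p * p'⁻¹ = (b ^ ((N : ℤ) * i) * a ^ l)⁻¹ * (b ^ ((N : ℤ) * j) * a ^ l' * p') * p'⁻¹ := by
          rw [← e1]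
      _ = _ := by group
  · intro i j hij
    have hyW : ∀ k : ℕ, t k * y ∈ W := by
      intro k
      change t k * y ∈ tr y Pl
      rw [mem_tr, hPlm]
      refine ⟨y⁻¹ * t k * y, ?_, 1, hP1, by group⟩
      have := hn.conj_mem (t k) (H.zpow_mem hbH _) y⁻¹
      rwa [inv_inv] at this
    have hUc : Conn (cay S) ((tr (t i) C ∪ W) ∪ tr (t j) C) := by
      refine union_meet (union_meet (tr_conn hS _ hCc) hWc (a := t i * y) ?_ (hyW i))
        (tr_conn hS _ hCc) (a := t j * y) (Or.inr (hyW j)) ?_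
      · rw [mem_tr, inv_mul_cancel_left]; exact hCy
      · rw [mem_tr, inv_mul_cancel_left]; exact hCy
    have hi : t i ∈ (tr (t i) C ∪ W) ∪ tr (t j) C := by
      left; left
      rw [mem_tr, inv_mul_cancel]; exact hC1
    have hj : t j ∈ (tr (t i) C ∪ W) ∪ tr (t j) C := by
      right
      rw [mem_tr, inv_mul_cancel]; exact hC1
    obtain ⟨D, hDf, hDs, -, hD⟩ := Pool.Agent.Helper74.NW.Rel.finite (rel_of_conn hUc hi hj) hi
    refine ⟨D, hDf, hD, ?_⟩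
    intro k hki hkj
    refine Set.disjoint_of_subset_left hDs ?_
    rw [Set.disjoint_union_left, Set.disjoint_union_left]
    exact ⟨⟨hCT i k hki, hTW k⟩, hCT j k hkj⟩

/-- **SOL**, without hypotheses: infinite virtually soluble groups are virtually `ℤ`, virtually `ℤ²` or
universal. -/
theorem vsol' {Γ : Type u} [Group Γ] [Infinite Γ]
    (hs : ∃ N : Subgroup Γ, N.FiniteIndex ∧ Group.IsSolvable N) :
    (∃ c : Γ, (Subgroup.zpowers c).FiniteIndex) ∨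
    (∃ A : Subgroup Γ, A.FiniteIndex ∧ Nonempty (A ≃* Multiplicative (ℤ × ℤ))) ∨
    Pool.Agent.Helper52.UN.Uv Γ :=
  vsol u5p hs

end Pool.Agent.Helper88.UN
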